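import Pool.Agent.W902.C6.Stm

/-!
Project C6, part ONE: polynomially many configurations with a line missing at most `M` points.
-/

set_option autoImplicit false

open Pool.Agent.H800R3 Pool.Agent.W902.C6

namespace Pool.Agent.W351.C6.One

/-- a down-closed predicate is determined by the number of its members -/
lemma down_iff (N : ℕ) (p : ℕ → Prop) [DecidablePred p]
    (hp : ∀ k l, k ≤ l → l < N → p l → p k) {k : ℕ} (hk : k < N) :
    p k ↔ k < ((Finset.range N).filter p).card := by
  constructor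
  · intro h
    have h1 : Finset.range (k + 1) ⊆ (Finset.range N).filter p := by
      intro j hj
      rw [Finset.mem_range] at hj
      rw [Finset.mem_filter, Finset.mem_range]
      exact ⟨by omega, hp j k (by omega) hk h⟩
    have h2 := Finset.card_le_card h1
    rw [Finset.card_range] at h2
    omega
  · intro h
    by_contra hcon
    have h1 : (Finset.range N).filter p ⊆ Finset.range k := by
      intro j hj
      rw [Finset.mem_filter, Finset.mem_range] at hj
      rw [Finset.mem_range]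
      by_contra hjk
      exact hcon (hp k j (by omega) hj.1 hj.2)
    have h2 := Finset.card_le_card h1
    rw [Finset.card_range] at h2
    omega

/-- a monotone sequence of signs is determined by two counts -/
lemma seq_eq (N : ℕ) (w w' : ℕ → SignType) (hw : ∀ k l, k ≤ l → l < N → w k ≤ w l)
    (hw' : ∀ k l, k ≤ l → l < N → w' k ≤ w' l)
    (h1 : ((Finset.range N).filter (fun k => w k ≤ -1)).card =
      ((Finset.range N).filter (fun k => w' k ≤ -1)).card)
    (h2 : ((Finset.range N).filter (fun k => w k ≤ 0)).card =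
      ((Finset.range N).filter (fun k => w' k ≤ 0)).card) {k : ℕ} (hk : k < N) : w k = w' k := by
  have a1 := down_iff N (fun k => w k ≤ -1) (fun k l hkl hl h => (hw k l hkl hl).trans h) hk
  have a2 := down_iff N (fun k => w' k ≤ -1) (fun k l hkl hl h => (hw' k l hkl hl).trans h) hk
  have a3 := down_iff N (fun k => w k ≤ 0) (fun k l hkl hl h => (hw k l hkl hl).trans h) hk
  have a4 := down_iff N (fun k => w' k ≤ 0) (fun k l hkl hl h => (hw' k l hkl hl).trans h) hk
  rw [h1, ← a2] at a1
  rw [h2, ← a4] at a3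
  have : ∀ s t : SignType, (s ≤ -1 ↔ t ≤ -1) → (s ≤ 0 ↔ t ≤ 0) → s = t := by decide
  exact this _ _ a1 a3

/-- `D p q` is affine along a line -/
lemma D_affine {a b x y : Pt} (hx : D a b x = 0) (hy : D a b y = 0) (p q : Pt) :
    nn a b * (D p q y - D p q x) = (tp a b y - tp a b x) * (D p q b - D p q a) := by
  unfold D tp nn at *
  linear_combination ((q.1 - p.1) * (b.1 - a.1) + (q.2 - p.2) * (b.2 - a.2)) * hy -
    ((q.1 - p.1) * (b.1 - a.1) + (q.2 - p.2) * (b.2 - a.2)) * hx

/-- the sign sequence of a line along another line is monotone up to a sign -/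
lemma exists_sigma {a b : Pt} (hab : a ≠ b) (N : ℕ) (X : ℕ → Pt)
    (hX : ∀ k < N, D a b (X k) = 0) (hmono : ∀ k l, k < l → l < N → tp a b (X k) < tp a b (X l))
    (p q : Pt) : ∃ σ : SignType, σ ≠ 0 ∧
      ∀ k l, k ≤ l → l < N → σ * orient p q (X k) ≤ σ * orient p q (X l) := by
  have hN := nn_pos hab
  have hle : ∀ k l, k ≤ l → l < N → 0 ≤ tp a b (X l) - tp a b (X k) := by
    intro k l hkl hl
    rcases hkl.lt_or_eq with h | h
    · exact sub_nonneg.2 (hmono k l h hl).le
    · rw [h, sub_self]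
  rcases le_total 0 (D p q b - D p q a) with h | h
  · refine ⟨1, by decide, fun k l hkl hl => ?_⟩
    rw [one_mul, one_mul]
    have h1 := D_affine (hX k (lt_of_le_of_lt hkl hl)) (hX l hl) p q
    have h2 : 0 ≤ nn a b * (D p q (X l) - D p q (X k)) := by
      rw [h1]; exact mul_nonneg (hle k l hkl hl) h
    have h3 : 0 ≤ D p q (X l) - D p q (X k) := nonneg_of_mul_nonneg_right h2 hN
    exact SignType.sign.monotone (by linarith)
  · refine ⟨-1, by decide, fun k l hkl hl => ?_⟩
    have h1 := D_affine (hX k (lt_of_le_of_lt hkl hl)) (hX l hl) p q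
    have h2 : 0 ≤ nn a b * -(D p q (X l) - D p q (X k)) := by
      rw [mul_neg, h1, ← mul_neg]
      exact mul_nonneg (hle k l hkl hl) (by linarith)
    have h3 : 0 ≤ -(D p q (X l) - D p q (X k)) := nonneg_of_mul_nonneg_right h2 hN
    have h4 : orient p q (X l) ≤ orient p q (X k) := SignType.sign.monotone (by linarith)
    have : ∀ s t : SignType, s ≤ t → -1 * t ≤ -1 * s := by decide
    exact this _ _ h4

/-- enumeration of a configuration: `P` enumerates the points off the line `a b`, `X` those on the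
line, from left to right -/
structure Rep (S : Finset Pt) (a b : Pt) (f N : ℕ) (P X : ℕ → Pt) : Prop where
  hab : a ≠ b
  hP : ∀ i < f, P i ∈ S ∧ D a b (P i) ≠ 0
  hX : ∀ k < N, X k ∈ S ∧ D a b (X k) = 0
  cov : ∀ x ∈ S, (∃ i < f, x = P i) ∨ (∃ k < N, x = X k)
  inj : ∀ i < f, ∀ j < f, P i = P j → i = j
  mono : ∀ k l, k < l → l < N → tp a b (X k) < tp a b (X l)

lemma exists_rep (S : Finset Pt) (a b : Pt) (hab : a ≠ b) :
    ∃ P X : ℕ → Pt, Rep S a b (S.filter (fun x => D a b x ≠ 0)).card
      (S.card - (S.filter (fun x => D a b x ≠ 0)).card) P X := by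
  classical
  set F := S.filter (fun x => D a b x ≠ 0) with hF
  set L := S.filter (fun x => D a b x = 0) with hL
  have hcard : S.card - F.card = L.card := by
    have h1 : F.card + L.card = S.card := by
      rw [← Finset.card_union_of_disjoint]
      · congr 1
        ext x
        rw [Finset.mem_union, hF, hL, Finset.mem_filter, Finset.mem_filter]
        tauto
      · rw [Finset.disjoint_left]
        intro x hx hx'
        exact (Finset.mem_filter.1 hx).2 (Finset.mem_filter.1 hx').2
    omega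
  rw [hcard]
  have hinj : Set.InjOn (tp a b) (L : Set Pt) := by
    intro x hx y hy hxy
    exact tp_inj hab (Finset.mem_filter.1 hx).2 (Finset.mem_filter.1 hy).2 hxy
  have hT : (L.image (tp a b)).card = L.card := Finset.card_image_of_injOn hinj
  set o := (L.image (tp a b)).orderEmbOfFin hT with ho
  have hmem : ∀ k : Fin L.card, ∃ x ∈ L, tp a b x = o k := by
    intro k
    have := (L.image (tp a b)).orderEmbOfFin_mem hT k
    obtain ⟨x, hx, hx'⟩ := Finset.mem_image.1 this
    exact ⟨x, hx, hx'⟩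
  choose xs hxs1 hxs2 using hmem
  refine ⟨fun i => if h : i < F.card then (F.equivFin.symm ⟨i, h⟩ : Pt) else a,
    fun k => if h : k < L.card then xs ⟨k, h⟩ else a, hab, ?_, ?_, ?_, ?_, ?_⟩
  · intro i hi
    simp only [dif_pos hi]
    have := (F.equivFin.symm ⟨i, hi⟩).2
    exact Finset.mem_filter.1 this
  · intro k hk
    simp only [dif_pos hk]
    exact Finset.mem_filter.1 (hxs1 ⟨k, hk⟩)
  · intro x hx
    by_cases hxF : x ∈ F
    · left
      refine ⟨F.equivFin ⟨x, hxF⟩, (F.equivFin ⟨x, hxF⟩).2, ?_⟩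
      simp only [dif_pos (F.equivFin ⟨x, hxF⟩).2]
      simp
    · right
      have hxL : x ∈ L := by
        rw [hL, Finset.mem_filter]
        refine ⟨hx, ?_⟩
        by_contra hcon
        exact hxF (Finset.mem_filter.2 ⟨hx, hcon⟩)
      have h1 : tp a b x ∈ Set.range o := by
        rw [ho, Finset.range_orderEmbOfFin]
        exact Finset.mem_coe.2 (Finset.mem_image_of_mem _ hxL)
      obtain ⟨k, hk⟩ := h1
      refine ⟨k, k.2, ?_⟩
      simp only [dif_pos k.2]
      refine hinj hxL (hxs1 k) ?_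
      rw [hxs2 k, hk]
  · intro i hi j hj hij
    simp only [dif_pos hi, dif_pos hj] at hij
    have := F.equivFin.symm.injective (Subtype.ext hij)
    exact congrArg Fin.val this
  · intro k l hkl hl
    have hk : k < L.card := by omega
    simp only [dif_pos hk, dif_pos hl]
    rw [hxs2, hxs2]
    exact o.strictMono hkl

/-- equal codes give equal configurations -/
lemma same_of_rep {S S' : Finset Pt} {a b a' b' : Pt} {f N : ℕ} {P X P' X' : ℕ → Pt}
    (hcard : S.card = S'.card) (R : Rep S a b f N P X) (R' : Rep S' a' b' f N P' X')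
    (tab : ∀ i < f, ∀ j < f, ∀ k < f, orient (P' i) (P' j) (P' k) = orient (P i) (P j) (P k))
    (sgn : ∀ i < f, orient a' b' (P' i) = orient a b (P i))
    (seq : ∀ i < f, ∀ j < f, ∀ k < N, orient (P' i) (P' j) (X' k) = orient (P i) (P j) (X k)) :
    SameConf S S' := by
  classical
  -- the relation
  have hex : ∀ x ∈ S, ∃ y, (∃ i < f, x = P i ∧ y = P' i) ∨ (∃ k < N, x = X k ∧ y = X' k) := by
    intro x hx
    rcases R.cov x hx with ⟨i, hi, h⟩ | ⟨k, hk, h⟩
    · exact ⟨P' i, Or.inl ⟨i, hi, h, rfl⟩⟩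
    · exact ⟨X' k, Or.inr ⟨k, hk, h, rfl⟩⟩
  choose! g hg using hex
  have hsign : ∀ k < N, ∀ l < N, SignType.sign (tp a' b' (X' l) - tp a' b' (X' k)) =
      SignType.sign (tp a b (X l) - tp a b (X k)) := by
    intro k hk l hl
    rcases lt_trichotomy k l with h | h | h
    · rw [sign_pos (sub_pos.2 (R.mono k l h hl)), sign_pos (sub_pos.2 (R'.mono k l h hl))]
    · rw [h, sub_self, sub_self]
    · rw [sign_neg (sub_neg.2 (R.mono l k h hk)), sign_neg (sub_neg.2 (R'.mono l k h hk))]
  have hab : ∀ x ∈ S, orient a' b' (g x) = orient a b x := by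
    intro x hx
    rcases hg x hx with ⟨i, hi, h1, h2⟩ | ⟨k, hk, h1, h2⟩
    · rw [h2, h1]; exact sgn i hi
    · rw [h2, h1]
      unfold orient
      rw [(R.hX k hk).2, (R'.hX k hk).2]
  -- two points on the line
  have hC : ∀ k < N, ∀ l < N, ∀ x ∈ S, orient (X' k) (X' l) (g x) = orient (X k) (X l) x := by
    intro k hk l hl x hx
    rw [orient_line R.hab (R.hX k hk).2 (R.hX l hl).2,
      orient_line R'.hab (R'.hX k hk).2 (R'.hX l hl).2, hsign k hk l hl, hab x hx]
  have hsub : SubConf S S' := by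
    refine subConf_of_map g ?_ ?_ ?_
    · intro x hx
      rcases hg x hx with ⟨i, hi, h1, h2⟩ | ⟨k, hk, h1, h2⟩
      · rw [h2]; exact (R'.hP i hi).1
      · rw [h2]; exact (R'.hX k hk).1
    · intro x hx y hy hxy
      rcases hg x hx with ⟨i, hi, h1, h2⟩ | ⟨k, hk, h1, h2⟩
      · rcases hg y hy with ⟨j, hj, h3, h4⟩ | ⟨l, hl, h3, h4⟩
        · have := R'.inj i hi j hj (by rw [← h2, ← h4, hxy])
          rw [h1, h3, this]
        · exfalso
          apply (R'.hP i hi).2
          rw [← h2, hxy, h4]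
          exact (R'.hX l hl).2
      · rcases hg y hy with ⟨j, hj, h3, h4⟩ | ⟨l, hl, h3, h4⟩
        · exfalso
          apply (R'.hP j hj).2
          rw [← h4, ← hxy, h2]
          exact (R'.hX k hk).2
        · have e : X' k = X' l := by rw [← h2, ← h4, hxy]
          rcases lt_trichotomy k l with h | h | h
          · have := R'.mono k l h hl
            rw [e] at this
            exact absurd this (lt_irrefl _)
          · rw [h1, h3, h]
          · have := R'.mono l k h hk
            rw [e] at this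
            exact absurd this (lt_irrefl _)
    · intro x hx y hy z hz
      rcases hg x hx with ⟨i, hi, h1, h2⟩ | ⟨k, hk, h1, h2⟩
      · rcases hg y hy with ⟨j, hj, h3, h4⟩ | ⟨l, hl, h3, h4⟩
        · rcases hg z hz with ⟨t, ht, h5, h6⟩ | ⟨t, ht, h5, h6⟩
          · rw [h2, h4, h6, h1, h3, h5]; exact tab i hi j hj t ht
          · rw [h2, h4, h6, h1, h3, h5]; exact seq i hi j hj t ht
        · rcases hg z hz with ⟨t, ht, h5, h6⟩ | ⟨t, ht, h5, h6⟩
          · rw [h2, h4, h6, h1, h3, h5, orient_cyc (P t) (P i) (X l), orient_cyc (P' t) (P' i) (X' l)]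
            exact seq t ht i hi l hl
          · rw [← orient_cyc x y z, ← orient_cyc (g x) (g y) (g z), h4, h6, h3, h5]
            exact hC l hl t ht x hx
      · rcases hg y hy with ⟨j, hj, h3, h4⟩ | ⟨l, hl, h3, h4⟩
        · rcases hg z hz with ⟨t, ht, h5, h6⟩ | ⟨t, ht, h5, h6⟩
          · rw [h2, h4, h6, h1, h3, h5, ← orient_cyc (X k) (P j) (P t),
              ← orient_cyc (X' k) (P' j) (P' t)]
            exact seq j hj t ht k hk
          · rw [orient_cyc z x y, orient_cyc (g z) (g x) (g y), h6, h2, h5, h1]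
            exact hC t ht k hk y hy
        · rw [h2, h4, h1, h3]
          exact hC k hk l hl z hz
  obtain ⟨S'', hS'', hsame⟩ := hsub
  have hc : S''.card = S'.card := by
    obtain ⟨e, -⟩ := hsame
    have : S.card = S''.card := by simpa using Fintype.card_congr e
    omega
  have := Finset.eq_of_subset_of_card_le hS'' hc.ge
  rwa [this] at hsame

/-- the type of codes -/
abbrev Cd (M n : ℕ) : Type := Fin (M + 1) × (Fin M → Fin M → Fin M → SignType) ×
  (Fin M → SignType) × (Fin M → Fin M → SignType × Fin (n + 1) × Fin (n + 1))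

/-- `c` is a code of `S` -/
def Code (M n : ℕ) (S : Finset Pt) (c : Cd M n) : Prop :=
  ∃ (a b : Pt) (P X : ℕ → Pt), Rep S a b (c.1 : ℕ) (n - (c.1 : ℕ)) P X ∧ S.card = n ∧
    (∀ i j k : Fin M, c.2.1 i j k = orient (P i) (P j) (P k)) ∧
    (∀ i : Fin M, c.2.2.1 i = orient a b (P i)) ∧
    ∀ i j : Fin M, (c.2.2.2 i j).1 ≠ 0 ∧
      (∀ k l, k ≤ l → l < n - (c.1 : ℕ) →
        (c.2.2.2 i j).1 * orient (P i) (P j) (X k) ≤ (c.2.2.2 i j).1 * orient (P i) (P j) (X l)) ∧
      ((c.2.2.2 i j).2.1 : ℕ) = ((Finset.range (n - (c.1 : ℕ))).filter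
        (fun k => (c.2.2.2 i j).1 * orient (P i) (P j) (X k) ≤ -1)).card ∧
      ((c.2.2.2 i j).2.2 : ℕ) = ((Finset.range (n - (c.1 : ℕ))).filter
        (fun k => (c.2.2.2 i j).1 * orient (P i) (P j) (X k) ≤ 0)).card

lemma exists_code (M n : ℕ) (S : Finset Pt) (hS : S.card = n) (a b : Pt) (hab : a ≠ b)
    (hM : (S.filter (fun x => D a b x ≠ 0)).card ≤ M) : ∃ c, Code M n S c := by
  obtain ⟨P, X, R⟩ := exists_rep S a b hab
  rw [hS] at R
  set f := (S.filter (fun x => D a b x ≠ 0)).card with hf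
  have hσ := fun p q => exists_sigma hab (n - f) X (fun k hk => (R.hX k hk).2) R.mono p q
  choose σ hσ1 hσ2 using hσ
  have hbd : ∀ (p : ℕ → Prop) [DecidablePred p],
      ((Finset.range (n - f)).filter p).card < n + 1 := by
    intro p _
    have h1 := Finset.card_filter_le (Finset.range (n - f)) p
    rw [Finset.card_range] at h1
    omega
  refine ⟨(⟨f, by omega⟩, fun i j k => orient (P i) (P j) (P k), fun i => orient a b (P i),
    fun i j => (σ (P i) (P j), ⟨_, hbd (fun k => σ (P i) (P j) * orient (P i) (P j) (X k) ≤ -1)⟩,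
      ⟨_, hbd (fun k => σ (P i) (P j) * orient (P i) (P j) (X k) ≤ 0)⟩)),
    a, b, P, X, R, hS, fun _ _ _ => rfl, fun _ => rfl, fun i j => ⟨hσ1 _ _, hσ2 _ _, rfl, rfl⟩⟩

lemma same_of_code {M n : ℕ} {S S' : Finset Pt} {c : Cd M n} (h : Code M n S c)
    (h' : Code M n S' c) : SameConf S S' := by
  obtain ⟨a, b, P, X, R, hn, h1, h2, h3⟩ := h
  obtain ⟨a', b', P', X', R', hn', h1', h2', h3'⟩ := h'
  have hf : (c.1 : ℕ) ≤ M := by
    have := c.1.2
    omega
  refine same_of_rep (hn.trans hn'.symm) R R' ?_ ?_ ?_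
  · intro i hi j hj k hk
    have e1 := h1 ⟨i, hi.trans_le hf⟩ ⟨j, hj.trans_le hf⟩ ⟨k, hk.trans_le hf⟩
    have e2 := h1' ⟨i, hi.trans_le hf⟩ ⟨j, hj.trans_le hf⟩ ⟨k, hk.trans_le hf⟩
    exact e2.symm.trans e1
  · intro i hi
    have e1 := h2 ⟨i, hi.trans_le hf⟩
    have e2 := h2' ⟨i, hi.trans_le hf⟩
    exact e2.symm.trans e1
  · intro i hi j hj k hk
    obtain ⟨g1, g2, g3, g4⟩ := h3 ⟨i, hi.trans_le hf⟩ ⟨j, hj.trans_le hf⟩
    obtain ⟨_, g2', g3', g4'⟩ := h3' ⟨i, hi.trans_le hf⟩ ⟨j, hj.trans_le hf⟩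
    have e := seq_eq (n - (c.1 : ℕ)) _ _ g2' g2 (g3'.symm.trans g3) (g4'.symm.trans g4) hk
    have : ∀ s u v : SignType, s ≠ 0 → s * u = s * v → u = v := by decide
    exact this _ _ _ g1 e

lemma card_Cd (M n : ℕ) : Fintype.card (Cd M n) =
    ((M + 1) * ((3 ^ M) ^ M) ^ M * 3 ^ M * (3 ^ M) ^ M) * (n + 1) ^ (2 * (M * M)) := by
  have h3 : Fintype.card SignType = 3 := rfl
  simp only [Fintype.card_prod, Fintype.card_fun, Fintype.card_fin, h3]
  generalize n + 1 = x
  rw [mul_pow 3 (x * x) M, mul_pow (3 ^ M) ((x * x) ^ M) M, mul_pow x x M, ← pow_add,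
    ← pow_mul x, show (M + M) * M = 2 * (M * M) by ring]
  ring

lemma classes_bound (Q : Set (Finset Pt)) (β : Type) [Fintype β] (r : Finset Pt → β → Prop)
    (h1 : ∀ S ∈ Q, ∃ c, r S c) (h2 : ∀ S S' c, r S c → r S' c → SameConf S S') :
    (classes Q).Finite ∧ (classes Q).ncard ≤ Fintype.card β := by
  classical
  let g : β → Quotient confSetoid := fun c =>
    if h : ∃ S, r S c then Quotient.mk confSetoid h.choose else Quotient.mk confSetoid ∅
  have hsub : classes Q ⊆ ((Finset.univ.image g : Finset (Quotient confSetoid)) :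
      Set (Quotient confSetoid)) := by
    rintro _ ⟨S, hS, rfl⟩
    obtain ⟨c, hc⟩ := h1 S hS
    rw [Finset.mem_coe, Finset.mem_image]
    refine ⟨c, Finset.mem_univ _, ?_⟩
    have hex : ∃ S, r S c := ⟨S, hc⟩
    simp only [g, dif_pos hex]
    exact Quotient.sound (h2 _ _ c hex.choose_spec hc)
  refine ⟨(Finset.finite_toSet _).subset hsub, ?_⟩
  refine (Set.ncard_le_ncard hsub (Finset.finite_toSet _)).trans ?_
  rw [Set.ncard_coe_finset]
  exact Finset.card_image_le.trans_eq (Finset.card_univ)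

theorem main : S_one := by
  intro M
  refine ⟨(M + 1) * ((3 ^ M) ^ M) ^ M * 3 ^ M * (3 ^ M) ^ M, 2 * (M * M), fun n => ?_⟩
  have h := classes_bound {S : Finset Pt | S.card = n ∧ ∃ a b : Pt, a ≠ b ∧
    (S.filter (fun x => D a b x ≠ 0)).card ≤ M} (Cd M n) (Code M n)
    (fun S ⟨hS, a, b, hab, hM⟩ => exists_code M n S hS a b hab hM)
    (fun S S' c hc hc' => same_of_code hc hc')
  rw [card_Cd] at h
  exact h

end Pool.Agent.W351.C6.One
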